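import Pool.Agent.W455.EM.Stm
import Pool.Agent.FracEM.PM.Abs1
import Pool.Agent.FracEM.PM.Abs2
import Pool.Agent.FracEM.PM.Cnt

/-!
# Project EM, part ABS: absorbing set with linear capacity
-/

set_option autoImplicit false

namespace Pool.Agent.W19.EM

open Finset Pool.Agent.FracEM.PMT Pool.Agent.W455.EM

/-- gadget candidates -/
abbrev Gd (k n : ℕ) := (Fin k → Fin n) × (Fin k → Finset (Fin n))

theorem pm_biUnion {k n : ℕ} (H : Finset (Finset (Fin n))) (G : Finset (Gd k n))
    (hdisj : ∀ w ∈ G, ∀ w' ∈ G, w ≠ w' → Disjoint (gv w.1 w.2) (gv w'.1 w'.2))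
    (hGV : ∀ w ∈ G, GV H w.1 w.2) : PMon H (G.biUnion (fun w => gv w.1 w.2)) := by
  classical
  induction G using Finset.induction_on with
  | empty =>
    rw [biUnion_empty]
    exact PMon_empty H
  | insert a G ha ih =>
    rw [biUnion_insert]
    refine PMon_union H _ _ ?_ (gv_pm H _ _ (hGV a (mem_insert_self a G)))
      (ih (fun w hw w' hw' => hdisj w (mem_insert_of_mem hw) w' (mem_insert_of_mem hw'))
        (fun w hw => hGV w (mem_insert_of_mem hw)))
    rw [disjoint_biUnion_right]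
    intro w hw
    exact hdisj a (mem_insert_self a G) w (mem_insert_of_mem hw) (fun h => ha (h ▸ hw))

open Classical in
theorem absorb {k n : ℕ} (H : Finset (Finset (Fin n))) :
    ∀ (q : ℕ) (G : Finset (Gd k n)) (U : Finset (Fin n)),
    (∀ w ∈ G, ∀ w' ∈ G, w ≠ w' → Disjoint (gv w.1 w.2) (gv w'.1 w'.2)) →
    (∀ w ∈ G, GV H w.1 w.2) → U.card = k * q →
    Disjoint U (G.biUnion (fun w => gv w.1 w.2)) →
    (∀ x : Fin k → Fin n, q ≤ (G.filter (fun w => ∀ i, insert (x i) (w.2 i) ∈ H)).card) →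
    PMon H (G.biUnion (fun w => gv w.1 w.2) ∪ U) := by
  intro q
  induction q with
  | zero =>
    intro G U hdisj hGV hU _ _
    rw [mul_zero, card_eq_zero] at hU
    rw [hU, union_empty]
    exact pm_biUnion H G hdisj hGV
  | succ q ih =>
    intro G U hdisj hGV hU hUG hx
    have hkU : k ≤ U.card := by rw [hU]; exact Nat.le_mul_of_pos_right k (Nat.succ_pos q)
    obtain ⟨e, heU, hek⟩ := Finset.exists_subset_card_eq hkU
    set x : Fin k → Fin n := fun i => e.orderEmbOfFin hek i with hxdef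
    have hxinj : Function.Injective x := (e.orderEmbOfFin hek).injective
    have hximg : univ.image x = e := by
      ext v
      rw [mem_image]
      constructor
      · rintro ⟨i, _, rfl⟩
        exact e.orderEmbOfFin_mem hek i
      · intro hv
        have : v ∈ Set.range (e.orderEmbOfFin hek) := by
          rw [Finset.range_orderEmbOfFin]
          exact hv
        obtain ⟨i, hi⟩ := this
        exact ⟨i, mem_univ _, hi⟩
    have h1 : 0 < (G.filter (fun w => ∀ i, insert (x i) (w.2 i) ∈ H)).card :=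
      lt_of_lt_of_le (Nat.succ_pos q) (hx x)
    obtain ⟨w, hw⟩ := card_pos.1 h1
    rw [mem_filter] at hw
    obtain ⟨hwG, hwx⟩ := hw
    have hsubG : ∀ w ∈ G, gv w.1 w.2 ⊆ G.biUnion (fun w => gv w.1 w.2) :=
      fun w hw => subset_biUnion_of_mem (fun w : Gd k n => gv w.1 w.2) hw
    have hed : Disjoint e (gv w.1 w.2) := (hUG.mono_left heU).mono_right (hsubG w hwG)
    have h2 := gv_abs H w.1 w.2 (hGV w hwG) x hxinj (by rw [hximg]; exact hed) hwx
    rw [hximg] at h2
    have hcard : (U \ e).card = k * q := by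
      rw [card_sdiff_of_subset heU, hU, hek, Nat.mul_succ]
      omega
    have hsubE : (G.erase w).biUnion (fun w => gv w.1 w.2) ⊆ G.biUnion (fun w => gv w.1 w.2) :=
      biUnion_subset_biUnion_of_subset_left _ (erase_subset w G)
    have h3 := ih (G.erase w) (U \ e)
      (fun a ha b hb => hdisj a (mem_of_mem_erase ha) b (mem_of_mem_erase hb))
      (fun a ha => hGV a (mem_of_mem_erase ha)) hcard
      ((hUG.mono_left sdiff_subset).mono_right hsubE)
      (fun y => by
        have h4 := hx y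
        have h5 : (G.filter (fun w => ∀ i, insert (y i) (w.2 i) ∈ H)).card ≤
            ((G.erase w).filter (fun w => ∀ i, insert (y i) (w.2 i) ∈ H)).card + 1 := by
          rw [filter_erase]
          have h8 := pred_card_le_card_erase
            (s := G.filter (fun w => ∀ i, insert (y i) (w.2 i) ∈ H)) (a := w)
          omega
        omega)
    have hwd : Disjoint (gv w.1 w.2) ((G.erase w).biUnion (fun w => gv w.1 w.2)) := by
      rw [disjoint_biUnion_right]
      intro a ha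
      exact hdisj w hwG a (mem_of_mem_erase ha) (ne_of_mem_erase ha).symm
    have hd : Disjoint (gv w.1 w.2 ∪ e) ((G.erase w).biUnion (fun w => gv w.1 w.2) ∪ (U \ e)) := by
      rw [disjoint_union_left, disjoint_union_right, disjoint_union_right]
      refine ⟨⟨hwd, ?_⟩, ?_, disjoint_sdiff⟩
      · exact ((hUG.mono_left sdiff_subset).mono_right (hsubG w hwG)).symm
      · exact (hUG.mono_left heU).mono_right hsubE
    have h6 := PMon_union H _ _ hd h2 h3
    have heq : (gv w.1 w.2 ∪ e) ∪ ((G.erase w).biUnion (fun w => gv w.1 w.2) ∪ (U \ e)) =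
        G.biUnion (fun w => gv w.1 w.2) ∪ U := by
      have h7 : G.biUnion (fun w => gv w.1 w.2) =
          gv w.1 w.2 ∪ (G.erase w).biUnion (fun w => gv w.1 w.2) := by
        conv_lhs => rw [← insert_erase hwG]
        rw [biUnion_insert]
      rw [h7]
      ext a
      simp only [mem_union, mem_sdiff]
      constructor
      · rintro ((h | h) | (h | h))
        · exact Or.inl (Or.inl h)
        · exact Or.inr (heU h)
        · exact Or.inl (Or.inr h)
        · exact Or.inr h.1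
      · rintro ((h | h) | h)
        · exact Or.inl (Or.inl h)
        · exact Or.inr (Or.inl h)
        · by_cases ha : a ∈ e
          · exact Or.inl (Or.inr ha)
          · exact Or.inr (Or.inr ⟨h, ha⟩)
    rw [heq] at h6
    exact h6

theorem gv_card_Om {k n : ℕ} (w : Gd k n) (hw : w ∈ Om k n) : (gv w.1 w.2).card ≤ k * k := by
  classical
  have hw2 : ∀ i, (w.2 i).card = k - 1 := by
    intro i
    unfold Om at hw
    rw [mem_product, Fintype.mem_piFinset] at hw
    exact (mem_powersetCard.1 (hw.2 i)).2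
  have h3 : (univ.image w.1).card ≤ k := by
    calc (univ.image w.1).card ≤ (univ : Finset (Fin k)).card := Finset.card_image_le
      _ = k := by simp
  have h4 : (univ.biUnion w.2).card ≤ k * (k - 1) := by
    calc (univ.biUnion w.2).card ≤ ∑ i, (w.2 i).card := Finset.card_biUnion_le
      _ = ∑ _i : Fin k, (k - 1) := Finset.sum_congr rfl (fun i _ => hw2 i)
      _ = k * (k - 1) := by simp
  calc (gv w.1 w.2).card ≤ (univ.image w.1).card + (univ.biUnion w.2).card :=
        Finset.card_union_le _ _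
    _ ≤ k + k * (k - 1) := by omega
    _ = k * k := by
      rcases k with _ | k
      · simp
      · simp only [Nat.add_sub_cancel]; ring

theorem r_lt (c : ℝ) (hc0 : 0 < c) (hc1 : c ≤ 1) :
    0 ≤ (2 : ℝ) ^ (c / 2) * (1 - c / 2) ∧ (2 : ℝ) ^ (c / 2) * (1 - c / 2) < 1 := by
  have h1 : 0 < 1 - c / 2 := by linarith
  refine ⟨by positivity, ?_⟩
  have h2 : (2 : ℝ) ^ (c / 2) = Real.exp (Real.log 2 * (c / 2)) :=
    Real.rpow_def_of_pos two_pos _
  have h3 : 1 - c / 2 ≤ Real.exp (-(c / 2)) := Real.one_sub_le_exp_neg _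
  rw [h2]
  calc Real.exp (Real.log 2 * (c / 2)) * (1 - c / 2) ≤
        Real.exp (Real.log 2 * (c / 2)) * Real.exp (-(c / 2)) :=
        mul_le_mul_of_nonneg_left h3 (Real.exp_pos _).le
    _ = Real.exp (Real.log 2 * (c / 2) + -(c / 2)) := (Real.exp_add _ _).symm
    _ < 1 := by
        rw [Real.exp_lt_one_iff]
        have := Real.log_two_lt_d9
        nlinarith

open Classical in
/-- the conflicts of one gadget -/
theorem conf_one {k n : ℕ} (hk : 2 ≤ k) (hn : 1 ≤ n) (hkn : k ≤ n) (w : {w // w ∈ Om k n}) :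
    (((univ : Finset {w // w ∈ Om k n}).filter
      (fun w' => ¬ Disjoint (gv w.1.1 w.1.2) (gv w'.1.1 w'.1.2))).card : ℝ) ≤
      3 * (k : ℝ) ^ 4 / n * (Fintype.card {w // w ∈ Om k n} : ℝ) := by
  have h1 := bad_count k hk n hn hkn (gv w.1.1 w.1.2)
  rw [← good_gadgets_cardOm] at h1
  have h2 : (((univ : Finset {w // w ∈ Om k n}).filter
      (fun w' => ¬ Disjoint (gv w.1.1 w.1.2) (gv w'.1.1 w'.1.2))).card) ≤
      ((Om k n).filter (fun w' => (∃ i, w'.1 i ∈ gv w.1.1 w.1.2) ∨
        (∃ i, ¬ Disjoint (w'.2 i) (gv w.1.1 w.1.2)) ∨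
        (∃ i j, w'.1 i ∈ w'.2 j) ∨ (∃ i j, i ≠ j ∧ ¬ Disjoint (w'.2 i) (w'.2 j)))).card := by
    refine card_le_card_of_injOn (fun w' => w'.1) ?_ (fun a _ b _ h => Subtype.ext h)
    intro w' hw'
    rw [mem_coe, mem_filter] at hw'
    rw [mem_coe, mem_filter]
    refine ⟨w'.2, ?_⟩
    have h3 := hw'.2
    rw [not_disjoint_iff] at h3
    obtain ⟨a, ha1, ha2⟩ := h3
    unfold gv at ha2
    rw [mem_union, mem_image, mem_biUnion] at ha2
    rcases ha2 with ⟨i, _, hi⟩ | ⟨i, _, hi⟩
    · left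
      refine ⟨i, ?_⟩
      rw [hi]
      exact ha1
    · right
      left
      refine ⟨i, ?_⟩
      rw [not_disjoint_iff]
      exact ⟨a, hi, ha1⟩
  have h4 : (((gv w.1.1 w.1.2).card : ℕ) : ℝ) ≤ (k : ℝ) ^ 2 := by
    have h5 := gv_card_Om w.1 w.2
    have h6 : (((gv w.1.1 w.1.2).card : ℕ) : ℝ) ≤ ((k * k : ℕ) : ℝ) := by exact_mod_cast h5
    rw [pow_two]
    push_cast at h6
    exact h6
  have hn0 : (0 : ℝ) < n := by exact_mod_cast hn
  have h7 : (k : ℝ) ^ 2 * ((gv w.1.1 w.1.2).card : ℝ) / n + 2 * (k : ℝ) ^ 4 / n ≤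
      3 * (k : ℝ) ^ 4 / n := by
    rw [← add_div]
    apply div_le_div_of_nonneg_right _ hn0.le
    have h8 : (k : ℝ) ^ 2 * ((gv w.1.1 w.1.2).card : ℝ) ≤ (k : ℝ) ^ 2 * (k : ℝ) ^ 2 :=
      mul_le_mul_of_nonneg_left h4 (by positivity)
    nlinarith
  have h9 : (Fintype.card {w // w ∈ Om k n} : ℝ) = ((Om k n).card : ℝ) := by
    rw [Fintype.card_coe]
  rw [h9]
  calc _ ≤ _ := by exact_mod_cast h2
    _ ≤ _ := h1
    _ ≤ _ := mul_le_mul_of_nonneg_right h7 (by positivity)

theorem main (hSEL : S_SEL) : S_ABS := by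
  intro k hk η hη θ hθ
  classical
  obtain ⟨c, hc0, hc1, β0, hβ0, n1, hgood⟩ := good_gadgets k hk η hη
  have hk0 : (0 : ℝ) < k := by exact_mod_cast (by omega : 0 < k)
  obtain ⟨θ', hθ'⟩ : ∃ θ' : ℝ, θ' = min (c / (48 * (k : ℝ) ^ 4)) (θ / (k : ℝ) ^ 2) := ⟨_, rfl⟩
  have hθ'0 : 0 < θ' := by
    rw [hθ']
    exact lt_min (by positivity) (by positivity)
  obtain ⟨hr0, hr1⟩ := r_lt c hc0 hc1
  set r : ℝ := (2 : ℝ) ^ (c / 2) * (1 - c / 2) with hr
  obtain ⟨n2, hn2⟩ := one_abs_evt (k + 1) (1 - r) θ' (by linarith) (by linarith) hθ'0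
  obtain ⟨n3, hn3⟩ := exists_nat_ge (2 / θ')
  refine ⟨c * θ' / 8, by positivity, n1 + n2 + n3 + k + 2, ?_⟩
  intro n hn H hH hdeg
  have hnpos : (0 : ℝ) < n := by exact_mod_cast (by omega : 0 < n)
  obtain ⟨m, hm⟩ : ∃ m : ℕ, m = ⌊θ' * n⌋₊ := ⟨_, rfl⟩
  have hm1 : (m : ℝ) ≤ θ' * n := by
    rw [hm]
    exact Nat.floor_le (by positivity)
  have hm2 : θ' * n < m + 1 := by
    rw [hm]
    exact Nat.lt_floor_add_one _
  have hbig : 2 ≤ θ' * n := by
    have h1 : (n3 : ℝ) ≤ n := by exact_mod_cast (by omega : n3 ≤ n)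
    have h2 := hn3.trans h1
    rw [div_le_iff₀ hθ'0] at h2
    linarith
  have hm3 : θ' * n / 2 ≤ m := by linarith
  have hOm : Nonempty {w // w ∈ Om k n} := by
    have hne : (Om k n).Nonempty := by
      unfold Om
      refine Finset.Nonempty.product ?_ ?_
      · have : Nonempty (Fin n) := ⟨⟨0, by omega⟩⟩
        exact Finset.univ_nonempty
      · rw [Fintype.piFinset_nonempty]
        intro _
        rw [Finset.powersetCard_nonempty]
        rw [Finset.card_univ, Fintype.card_fin]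
        omega
    obtain ⟨w, hw⟩ := hne
    exact ⟨⟨w, hw⟩⟩
  have hcΩ : (Fintype.card {w // w ∈ Om k n} : ℝ) = ((Om k n).card : ℝ) := by
    rw [Fintype.card_coe]
  obtain ⟨F, hFm, hFR, hFA⟩ := hSEL {w // w ∈ Om k n} (Fin k → Fin n)
    (fun x => (univ : Finset {w // w ∈ Om k n}).filter (fun w => GV H w.1.1 w.1.2 ∧
      ∀ i, insert (x i) (w.1.2 i) ∈ H))
    (fun w w' => ¬ Disjoint (gv w.1.1 w.1.2) (gv w'.1.1 w'.1.2)) c (3 * (k : ℝ) ^ 4 / n) m hc0 hc1
    (by
      intro w hd
      rw [disjoint_self_iff_empty] at hd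
      have h1 : w.1.1 ⟨0, by omega⟩ ∈ gv w.1.1 w.1.2 := by
        unfold gv
        exact mem_union_left _ (mem_image_of_mem _ (mem_univ _))
      rw [hd] at h1
      exact absurd h1 (notMem_empty _))
    (by
      intro x
      have h1 := hgood n (by omega) H hH hdeg ∅ (by rw [card_empty, Nat.cast_zero]; positivity) x
      rw [hcΩ]
      refine h1.trans ?_
      have h2 : ((Om k n).filter (fun w => GV H w.1 w.2 ∧ Disjoint (gv w.1 w.2) ∅ ∧
          ∀ i, insert (x i) (w.2 i) ∈ H)) ⊆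
          ((univ : Finset {w // w ∈ Om k n}).filter (fun w => GV H w.1.1 w.1.2 ∧
            ∀ i, insert (x i) (w.1.2 i) ∈ H)).image (fun w => w.1) := by
        intro w hw
        rw [mem_filter] at hw
        rw [mem_image]
        refine ⟨⟨w, hw.1⟩, ?_, rfl⟩
        rw [mem_filter]
        exact ⟨mem_univ _, hw.2.1, hw.2.2.2⟩
      have h3 := (card_le_card h2).trans card_image_le
      exact_mod_cast h3)
    (by
      rw [Finset.card_filter, Fintype.sum_prod_type]
      push_cast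
      have h1 : ∀ w : {w // w ∈ Om k n}, (∑ w' : {w // w ∈ Om k n},
          (if ¬ Disjoint (gv w.1.1 w.1.2) (gv w'.1.1 w'.1.2) then (1 : ℝ) else 0)) ≤
          3 * (k : ℝ) ^ 4 / n * (Fintype.card {w // w ∈ Om k n} : ℝ) := by
        intro w
        rw [Finset.sum_boole]
        exact conf_one hk (by omega) (by omega) w
      refine (Finset.sum_le_sum fun w _ => h1 w).trans (le_of_eq ?_)
      rw [Finset.sum_const, card_univ, nsmul_eq_mul]
      ring)
    (by
      have h1 : θ' ≤ c / (48 * (k : ℝ) ^ 4) := by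
        rw [hθ']
        exact min_le_left _ _
      rw [le_div_iff₀ (by positivity)] at h1
      have h2 : 16 * (3 * (k : ℝ) ^ 4 / n) * m ≤ 16 * (3 * (k : ℝ) ^ 4 / n) * (θ' * n) :=
        mul_le_mul_of_nonneg_left hm1 (by positivity)
      have h3 : 16 * (3 * (k : ℝ) ^ 4 / n) * (θ' * n) = θ' * (48 * (k : ℝ) ^ 4) := by
        field_simp
        ring
      linarith)
    (by
      have h1 := hn2 n (by omega)
      rw [sub_sub_cancel, ← hm] at h1
      have h2 : (Fintype.card (Fin k → Fin n) : ℝ) = (n : ℝ) ^ k := by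
        rw [Fintype.card_fun, Fintype.card_fin, Fintype.card_fin, Nat.cast_pow]
      rw [h2]
      have h3 : (2 : ℝ) * (n : ℝ) ^ k ≤ (n : ℝ) ^ (k + 1) := by
        rw [pow_succ, mul_comm]
        refine mul_le_mul_of_nonneg_left ?_ (by positivity)
        exact_mod_cast (by omega : 2 ≤ n)
      calc 2 * (n : ℝ) ^ k * r ^ m ≤ (n : ℝ) ^ (k + 1) * r ^ m :=
            mul_le_mul_of_nonneg_right h3 (pow_nonneg hr0 m)
        _ = r ^ m * (n : ℝ) ^ (k + 1) := mul_comm _ _
        _ < 1 := h1)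
  set G : Finset (Gd k n) := (F.image (fun w => w.1)).filter (fun w => GV H w.1 w.2) with hG
  have hGdisj : ∀ w ∈ G, ∀ w' ∈ G, w ≠ w' → Disjoint (gv w.1 w.2) (gv w'.1 w'.2) := by
    intro w hw w' hw' hne
    rw [hG, mem_filter, mem_image] at hw hw'
    obtain ⟨⟨a, ha, rfl⟩, _⟩ := hw
    obtain ⟨⟨b, hb, rfl⟩, _⟩ := hw'
    exact not_not.1 (hFR a ha b hb (fun h => hne (by rw [h])))
  have hGV : ∀ w ∈ G, GV H w.1 w.2 := by
    intro w hw
    rw [hG, mem_filter] at hw
    exact hw.2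
  refine ⟨G.biUnion (fun w => gv w.1 w.2), ?_, pm_biUnion H G hGdisj hGV, ?_⟩
  · have h1 : (G.biUnion (fun w => gv w.1 w.2)).card ≤ G.card * (k * k) :=
      card_biUnion_le_card_mul _ _ _ (fun w hw => gv_card H hH _ _ (hGV w hw))
    have h2 : G.card ≤ m := (card_filter_le _ _).trans (card_image_le.trans hFm)
    have h3 : (G.biUnion (fun w => gv w.1 w.2)).card ≤ m * (k * k) :=
      h1.trans (Nat.mul_le_mul_right _ h2)
    have h4 : ((G.biUnion (fun w => gv w.1 w.2)).card : ℝ) ≤ m * (k * k) := by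
      exact_mod_cast h3
    refine h4.trans ?_
    have h5 : θ' ≤ θ / (k : ℝ) ^ 2 := by
      rw [hθ']
      exact min_le_right _ _
    rw [le_div_iff₀ (by positivity)] at h5
    calc (m : ℝ) * (k * k) ≤ (θ' * n) * (k * k) :=
          mul_le_mul_of_nonneg_right hm1 (by positivity)
      _ = (θ' * (k : ℝ) ^ 2) * n := by ring
      _ ≤ θ * n := mul_le_mul_of_nonneg_right h5 hnpos.le
  · intro U hUZ hkU hUc
    obtain ⟨q, hq⟩ := hkU
    refine absorb H q G U hGdisj hGV hq hUZ ?_
    intro x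
    have h1 := hFA x
    have h2 : (F ∩ (univ : Finset {w // w ∈ Om k n}).filter (fun w => GV H w.1.1 w.1.2 ∧
        ∀ i, insert (x i) (w.1.2 i) ∈ H)).card ≤
        (G.filter (fun w => ∀ i, insert (x i) (w.2 i) ∈ H)).card := by
      refine card_le_card_of_injOn (fun w => w.1) ?_ (fun a _ b _ h => Subtype.ext h)
      intro w hw
      rw [mem_coe, mem_inter, mem_filter] at hw
      rw [mem_coe, mem_filter, hG, mem_filter, mem_image]
      exact ⟨⟨⟨w, hw.1, rfl⟩, hw.2.2.1⟩, hw.2.2.2⟩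
    have h3 : (q : ℝ) ≤ U.card := by
      rw [hq]
      exact_mod_cast Nat.le_mul_of_pos_left q (by omega : 0 < k)
    have h4 : (q : ℝ) ≤ ((G.filter (fun w => ∀ i, insert (x i) (w.2 i) ∈ H)).card : ℝ) := by
      calc (q : ℝ) ≤ U.card := h3
        _ ≤ c * θ' / 8 * n := hUc
        _ = c * (θ' * n / 2) / 4 := by ring
        _ ≤ c * m / 4 := by
          have := mul_le_mul_of_nonneg_left hm3 hc0.le
          linarith
        _ ≤ _ := h1
        _ ≤ _ := by exact_mod_cast h2
    exact_mod_cast h4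

end Pool.Agent.W19.EM
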